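import Pool.Agent.X92.Walsh3

/-!
# Dyadic Walsh–Cesàro means are unbounded at the endpoint `p = 1/(1+α)`

Negative answer to MP_b4b6e5_an, Q1, for every `α ∈ (0,1)`.
-/

open MeasureTheory Filter Topology Finset
open scoped ENNReal NNReal
open Pool.Agent.X92.Walsh

noncomputable section

namespace Pool.Agent.Results.MP_b4b6e5_an.CesaroUnbounded

/-- The Cesàro numbers `A_n^α = (α+1)⋯(α+n)/n!`. -/
def cesA (α : ℝ) (n : ℕ) : ℝ := (∏ k ∈ range n, (α + (k + 1))) / n.factorial

/-- The Cesàro means `σ_n^α f = (A_n^α)⁻¹ ∑_{k=1}^n A_{n-k}^{α-1} S_k f`. -/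
def cesMean (α : ℝ) (n : ℕ) (f : ℕ → G → ℝ) (x : G) : ℝ :=
  (cesA α n)⁻¹ * ∑ k ∈ Icc 1 n, cesA (α - 1) (n - k) * psum f k x

lemma cesA_zero (α : ℝ) : cesA α 0 = 1 := by simp [cesA]

lemma cesA_succ (α : ℝ) (n : ℕ) : cesA α (n + 1) = cesA α n * ((α + (n + 1)) / (n + 1)) := by
  unfold cesA
  rw [prod_range_succ, Nat.factorial_succ]
  push_cast
  have h1 : (n.factorial : ℝ) ≠ 0 := by positivity
  have h2 : (n : ℝ) + 1 ≠ 0 := by positivity
  field_simp

lemma cesA_pos {β : ℝ} (hβ : -1 < β) (n : ℕ) : 0 < cesA β n := by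
  induction n with
  | zero => rw [cesA_zero]; norm_num
  | succ n ih =>
    rw [cesA_succ]
    have : 0 < β + ((n : ℝ) + 1) := by
      have : (0 : ℝ) ≤ n := Nat.cast_nonneg n
      linarith
    positivity

lemma cesA_antitone {β : ℝ} (hβ : -1 < β) (hβ0 : β ≤ 0) : Antitone (cesA β) := by
  apply antitone_nat_of_succ_le
  intro n
  rw [cesA_succ]
  apply mul_le_of_le_one_right (cesA_pos hβ n).le
  rw [div_le_one (by positivity)]
  linarith

lemma cesA_low {α : ℝ} (hα : 0 < α) (hα1 : α < 1) (n : ℕ) (hn : 1 ≤ n) :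
    α * (n : ℝ) ^ (α - 1) ≤ cesA (α - 1) n := by
  induction n, hn using Nat.le_induction with
  | base =>
    rw [cesA_succ, cesA_zero]
    simp
  | succ n hn ih =>
    rw [cesA_succ]
    have hn0 : (0 : ℝ) < n := by exact_mod_cast hn
    have h1 := rpow_one_add_le_one_add_mul_self (s := -(1 / ((n : ℝ) + 1))) (p := 1 - α)
      (by
        have : 1 / ((n : ℝ) + 1) ≤ 1 := by
          rw [div_le_one (by positivity)]; linarith
        linarith) (by linarith) (by linarith)
    have h2 : 1 + -(1 / ((n : ℝ) + 1)) = n / (n + 1) := by field_simp; ring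
    have h3 : 1 + (1 - α) * -(1 / ((n : ℝ) + 1)) = (α - 1 + (n + 1)) / (n + 1) := by
      field_simp; ring
    rw [h2, h3] at h1
    have h4 : (((n + 1 : ℕ) : ℝ)) ^ (α - 1) = (n : ℝ) ^ (α - 1) * ((n : ℝ) / (n + 1)) ^ (1 - α) := by
      rw [Real.div_rpow (by positivity) (by positivity)]
      push_cast
      have h5 : (n : ℝ) ^ (α - 1) * (n : ℝ) ^ (1 - α) = 1 := by
        rw [← Real.rpow_add hn0]; simp
      have h6 : ((n : ℝ) + 1) ^ (α - 1) * ((n : ℝ) + 1) ^ (1 - α) = 1 := by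
        rw [← Real.rpow_add (by positivity)]; simp
      have h7 : ((n : ℝ) + 1) ^ (1 - α) ≠ 0 := by positivity
      field_simp
      rw [h6, h5]
    rw [h4, ← mul_assoc]
    exact mul_le_mul ih h1 (by positivity) (cesA_pos (by linarith) n).le

lemma cesA_gap {α : ℝ} (hα : 0 < α) (hα1 : α < 1) (n k : ℕ) (hn : 1 ≤ n) (hk : n ≤ k) :
    ((1 - α) / 2 / (1 + (1 - α) / 2)) * cesA (α - 1) n
      ≤ cesA (α - 1) n - cesA (α - 1) (n + k) := by
  set b := cesA (α - 1) with hb
  have hanti : Antitone b := cesA_antitone (by linarith) (by linarith)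
  have hpos : ∀ n, 0 < b n := cesA_pos (by linarith)
  have hn0 : (0 : ℝ) < n := by exact_mod_cast hn
  have h1 : ∀ j : ℕ, j ≤ n → (j : ℝ) * (b (2 * n) * (1 - α) / (2 * n)) ≤ b n - b (n + j) := by
    intro j
    induction j with
    | zero => intro _; simp
    | succ j ih =>
      intro hj
      have h2 := ih (by omega)
      have h3 : b (n + (j + 1)) = b (n + j) * ((α - 1 + ((n + j : ℕ) + 1)) / ((n + j : ℕ) + 1)) :=
        cesA_succ (α - 1) (n + j)
      have h4 : b (n + j) - b (n + (j + 1)) = b (n + j) * ((1 - α) / ((n + j : ℕ) + 1)) := by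
        rw [h3]
        have : (((n + j : ℕ) : ℝ) + 1) ≠ 0 := by positivity
        field_simp
        ring
      have h5 : b (2 * n) * ((1 - α) / (2 * n)) ≤ b (n + j) * ((1 - α) / ((n + j : ℕ) + 1)) := by
        apply mul_le_mul
        · exact hanti (by omega)
        · apply div_le_div_of_nonneg_left (by linarith) (by positivity)
          have : n + j + 1 ≤ 2 * n := by omega
          exact_mod_cast this
        · apply div_nonneg (by linarith) (by positivity)
        · exact (hpos _).le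
      push_cast
      rw [mul_div_assoc] at h2 ⊢
      linarith
  have h2 := h1 n le_rfl
  have h3 : (n : ℝ) * (b (2 * n) * (1 - α) / (2 * n)) = (1 - α) / 2 * b (2 * n) := by
    field_simp
  rw [h3, ← two_mul] at h2
  have h4 : b (n + k) ≤ b (2 * n) := hanti (by omega)
  set δ := (1 - α) / 2 with hδ
  have hδ0 : 0 < δ := by rw [hδ]; linarith
  have h5 : b (2 * n) ≤ b n / (1 + δ) := by
    rw [le_div_iff₀ (by positivity)]
    linarith
  have h6 : δ / (1 + δ) * b n = b n - b n / (1 + δ) := by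
    field_simp
    ring
  rw [h6]
  linarith

lemma cesA_up {α : ℝ} (hα : 0 < α) (hα1 : α < 1) (n : ℕ) (hn : 1 ≤ n) :
    cesA α n ≤ (1 + α) * (n : ℝ) ^ α := by
  induction n, hn using Nat.le_induction with
  | base =>
    rw [cesA_succ, cesA_zero]
    simp [add_comm]
  | succ n hn ih =>
    rw [cesA_succ]
    have hn0 : (0 : ℝ) < n := by exact_mod_cast hn
    have h1 := rpow_one_add_le_one_add_mul_self (s := -(1 / ((n : ℝ) + 1))) (p := α)
      (by
        have : 1 / ((n : ℝ) + 1) ≤ 1 := by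
          rw [div_le_one (by positivity)]; linarith
        linarith) (by linarith) (by linarith)
    have h2 : 1 + -(1 / ((n : ℝ) + 1)) = n / (n + 1) := by field_simp; ring
    rw [h2, Real.div_rpow (by positivity) (by positivity)] at h1
    have h3 : (α + ((n : ℝ) + 1)) / (n + 1) * (1 + α * -(1 / ((n : ℝ) + 1))) ≤ 1 := by
      have : (α + ((n : ℝ) + 1)) / (n + 1) * (1 + α * -(1 / ((n : ℝ) + 1)))
          = 1 - (α / (n + 1)) ^ 2 := by
        field_simp
        ring
      rw [this]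
      have := sq_nonneg (α / ((n : ℝ) + 1))
      linarith
    have hpos : 0 < (α + ((n : ℝ) + 1)) / (n + 1) := by positivity
    have h4 : (α + ((n : ℝ) + 1)) / (n + 1) * ((n : ℝ) ^ α / ((n : ℝ) + 1) ^ α) ≤ 1 :=
      (mul_le_mul_of_nonneg_left h1 hpos.le).trans h3
    have h5 : (n : ℝ) ^ α * ((α + ((n : ℝ) + 1)) / (n + 1)) ≤ ((n : ℝ) + 1) ^ α := by
      have h6 : (0 : ℝ) < ((n : ℝ) + 1) ^ α := by positivity
      have h7 : (α + ((n : ℝ) + 1)) / (n + 1) * ((n : ℝ) ^ α / ((n : ℝ) + 1) ^ α)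
          = (n : ℝ) ^ α * ((α + ((n : ℝ) + 1)) / (n + 1)) / ((n : ℝ) + 1) ^ α := by ring
      rw [h7, div_le_one h6] at h4
      exact h4
    calc cesA α n * ((α + ((n : ℝ) + 1)) / (n + 1))
        ≤ (1 + α) * (n : ℝ) ^ α * ((α + ((n : ℝ) + 1)) / (n + 1)) :=
          mul_le_mul_of_nonneg_right ih hpos.le
      _ = (1 + α) * ((n : ℝ) ^ α * ((α + ((n : ℝ) + 1)) / (n + 1))) := by ring
      _ ≤ (1 + α) * ((n : ℝ) + 1) ^ α := mul_le_mul_of_nonneg_left h5 (by positivity)
      _ = (1 + α) * (((n + 1 : ℕ) : ℝ)) ^ α := by push_cast; rfl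

/-- **Negative answer to MP_b4b6e5_an, Q1, for every `α ∈ (0,1)`.** With `p = 1/(1+α)`, for every
constant `C` there are a martingale `f ∈ H_p` and `n` with `‖σ^α_{2^n} f‖_p > C ‖f‖_{H_p}`. -/
theorem result (α : ℝ) (hα : 0 < α) (hα1 : α < 1) (C : ℝ≥0) :
    ∃ (f : ℕ → G → ℝ) (n : ℕ), MemHp (1 / (1 + α)) f ∧
      (C : ℝ≥0∞) * hpNorm (1 / (1 + α)) f < lpNorm (1 / (1 + α)) (cesMean α (2 ^ n) f) :=
  unbounded (b := cesA (α - 1)) (cesA_antitone (by linarith) (by linarith))
    (fun n => (cesA_pos (by linarith) n).le) hα hα1 hα (c1 := (1 - α) / 2 / (1 + (1 - α) / 2))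
    (by
      have : 0 < 1 - α := by linarith
      positivity) (C3 := 1 + α) (by linarith) (cesA_low hα hα1)
    (cesA_gap hα hα1) (cesA α) (fun n _ => cesA_pos (by linarith) n) (cesA_up hα hα1) C

end Pool.Agent.Results.MP_b4b6e5_an.CesaroUnbounded
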